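import Mathlib
import Pool.Agent.Y443.RG.Neq

/-! # Polynomially bounded residual finiteness growth: prescribed growth functions and exponents

The negative answers to Q1 and Q2 in a stronger form.  Every polynomially bounded nondecreasing
function `f` with `f n ≥ n ^ 192`, `f (4 n) ≥ 8 f n` and `f (n ^ 16) ≥ (f n) ^ 16` is equivalent to
the residual finiteness growth function of a finitely generated residually finite group which is
not virtually nilpotent; and the lower and the upper exponent of the growth can be prescribed.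

`rfGrowth` and `Dominated` are in `Pool.Agent.Helper439.RFDefs`; `Equivalent` (mutual domination)
is in `Pool.Agent.H171R3.RFG.Fin`. -/

set_option autoImplicit false

open Filter Pool.Agent.Helper439.RF Pool.Agent.H171R3.RFG Pool.Agent.Y443.RG

namespace Pool.Agent.Results.MP_f3c5e4_al.PrescribedExponents

/-- **(1)** Every polynomially bounded nondecreasing function `f` with `f n ≥ n ^ 192`,
`f (4 n) ≥ 8 f n` and `f (n ^ 16) ≥ (f n) ^ 16` is equivalent to the residual finiteness growth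
function of a finitely generated residually finite group which is not virtually nilpotent.
**(2)** For all real `192 ≤ α ≤ β ≤ 16 α - 45 / 2` there is such a group with polynomially bounded
residual finiteness growth `F` such that the lower limit of `log F(n) / log n` is `α` and the upper
limit is `β`; it is equivalent to `n ^ α` if `α = β`, and to no power `n ^ γ` if `α < β`. -/
theorem result :
    (∀ f : ℕ → ℝ, (∀ m n : ℕ, 1 ≤ m → m ≤ n → f m ≤ f n) →
      (∀ n : ℕ, 1 ≤ n → (n : ℝ) ^ 192 ≤ f n) →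
      (∀ n : ℕ, 1 ≤ n → 8 * f n ≤ f (4 * n)) →
      (∀ n : ℕ, 1 ≤ n → f n ^ 16 ≤ f (n ^ 16)) →
      (∃ C : ℕ, 0 < C ∧ ∀ n : ℕ, 1 ≤ n → f n ≤ C * (n : ℝ) ^ C) →
      ∃ (G : Type) (_ : Group G) (S : Set G), S.Finite ∧ Subgroup.closure S = ⊤ ∧
        Group.ResiduallyFinite G ∧ ¬ Group.IsVirtuallyNilpotent G ∧
        (∃ C : ℕ, 0 < C ∧ ∀ n : ℕ, 1 ≤ n → rfGrowth S n ≤ C * n ^ C) ∧
        Equivalent (fun n => (rfGrowth S n : ℝ)) f) ∧
    (∀ α β : ℝ, 192 ≤ α → α ≤ β → β ≤ 16 * α - 45 / 2 →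
      ∃ (G : Type) (_ : Group G) (S : Set G), S.Finite ∧ Subgroup.closure S = ⊤ ∧
        Group.ResiduallyFinite G ∧ ¬ Group.IsVirtuallyNilpotent G ∧
        (∃ C : ℕ, 0 < C ∧ ∀ n : ℕ, 1 ≤ n → rfGrowth S n ≤ C * n ^ C) ∧
        liminf (fun n : ℕ => Real.log (rfGrowth S n : ℝ) / Real.log n) atTop = α ∧
        limsup (fun n : ℕ => Real.log (rfGrowth S n : ℝ) / Real.log n) atTop = β ∧
        (α = β → Equivalent (fun n => (rfGrowth S n : ℝ)) (fun n => (n : ℝ) ^ α)) ∧
        (α < β → ∀ γ : ℝ, ¬ Equivalent (fun n => (rfGrowth S n : ℝ)) (fun n => (n : ℝ) ^ γ))) := by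
  have equiv_of : ∀ {f : ℕ → ℝ}, Reg f → ∀ {r : ℕ → ℝ},
      (∀ n : ℕ, 1 ≤ n → r n ≤ 2 * f (4 * n)) →
      (∀ n m : ℕ, 1 ≤ n → 28 * n ≤ m → f n ≤ 8 * r m) → Equivalent r f := by
    intro f hf r h1 h2
    refine ⟨⟨4, by norm_num, fun n hn => ?_⟩, ⟨28, by norm_num, fun n hn => ?_⟩⟩
    · have e1 := h1 n hn
      have e2 : 0 < f (4 * n) := hf.pos (by omega)
      push_cast
      linarith
    · have e1 := h2 n (28 * n) hn le_rfl
      have e2 : 0 < f n := hf.pos hn
      push_cast
      linarith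
  constructor
  · rintro f f1 f2 f3 f4 ⟨C, hC, f5⟩
    have hf : Reg f := ⟨f1, f2, f3, f4⟩
    obtain ⟨G, iG, S, g1, g2, g3, g4, g5, g6⟩ := realize hf
    exact ⟨G, iG, S, g1, g2, g3, g4, poly_bound C hC f5 g5, equiv_of hf g5 g6⟩
  · intro α β hα hαβ hβ
    set a : ℝ := (16 * α - β) / 15 with ha
    set c : ℝ := 16 * (β - α) / 15 with hc
    have ha1 : 3 / 2 ≤ a := by rw [ha]; linarith
    have hc1 : 0 ≤ c := by rw [hc]; linarith
    have e1 : a + c / 16 = α := by rw [ha, hc]; ring
    have e2 : a + c = β := by rw [ha, hc]; ring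
    have hF : Reg (F a c) := F_reg ha1 hc1 (by rw [e1]; exact hα)
    obtain ⟨G, iG, S, g1, g2, g3, g4, g5, g6⟩ := realize hF
    obtain ⟨l1, l2⟩ := exponents (by linarith) hc1 g5 g6
    rw [e1] at l1
    rw [e2] at l2
    refine ⟨G, iG, S, g1, g2, g3, g4, ?_, l1, l2, ?_, ?_⟩
    · obtain ⟨C, hC⟩ := exists_nat_ge (β + 1)
      have hC0 : (0 : ℝ) < C := by linarith
      refine poly_bound C (by exact_mod_cast hC0) (fun n hn => ?_) g5
      have hn1 : (1 : ℝ) ≤ n := by exact_mod_cast hn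
      have h1 : F a c n ≤ (n : ℝ) ^ (a + c) := F_le hc1 hn
      have h2 : (n : ℝ) ^ (a + c) ≤ (n : ℝ) ^ C := by
        rw [e2, ← Real.rpow_natCast]
        exact Real.rpow_le_rpow_of_exponent_le hn1 (by linarith)
      have h3 : (1 : ℝ) ≤ C := by linarith
      have h4 : (0 : ℝ) ≤ (n : ℝ) ^ C := by positivity
      nlinarith
    · intro h
      have hc0 : c = 0 := by rw [hc, h]; ring
      have ha0 : a = α := by rw [ha, ← h]; ring
      have h5 := equiv_of hF g5 g6
      have h6 : F a c = fun n : ℕ => (n : ℝ) ^ α := by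
        funext n
        rw [hc0, F_zero, ha0]
      rw [h6] at h5
      exact h5
    · intro h γ
      have hc2 : 0 < c := by rw [hc]; linarith
      exact not_equiv (by linarith) hc2 g5 g6 hF.mono γ

end Pool.Agent.Results.MP_f3c5e4_al.PrescribedExponents
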